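import Pool.Agent.Y588.LN.MT2
import Pool.Agent.H166R3.HD.Space

set_option autoImplicit false

/-! The null set meets every fibre that the diffuse part meets; property (N). -/

namespace Pool.Agent.Y588.LN

open MeasureTheory Measure Filter Topology Set Metric
open scoped ENNReal
open Pool.Agent.H166R3.HD (enc enc_lt enc_bit)

noncomputable section

variable {f : ℝ → ℝ} {l : Measure ℝ} {S : Set ℝ}

lemma cantor_mem (b : ℕ → Bool) : ENNReal.ofReal (Cardinal.cantorFunction (1/4) b) ∈ Cs := by
  intro n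
  refine ⟨enc b n, enc_lt b n, ?_⟩
  have hcc : cc n (enc b n) = ∑ i ∈ Finset.range n, Cardinal.cantorFunctionAux (1/4) b i := by
    unfold cc
    refine Finset.sum_congr rfl fun i hi => ?_
    rw [enc_bit b (Finset.mem_range.1 hi)]
    unfold Cardinal.cantorFunctionAux
    cases b i <;> simp
  have hsum := Cardinal.summable_cantor_function b (c := 1/4) (by norm_num) (by norm_num)
  have hnn : ∀ i, 0 ≤ Cardinal.cantorFunctionAux (1/4) b i := fun i =>
    Cardinal.cantorFunctionAux_nonneg (by norm_num)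
  have hle : ∀ i, Cardinal.cantorFunctionAux (1/4) b i ≤ (1/4:ℝ)^i := by
    intro i
    unfold Cardinal.cantorFunctionAux
    cases b i
    · simp only [cond_false]; positivity
    · simp
  constructor
  · apply ENNReal.ofReal_le_ofReal
    rw [hcc]
    exact hsum.sum_le_tsum _ (fun i _ => hnn i)
  · apply ENNReal.ofReal_le_ofReal
    rw [hcc]
    unfold Cardinal.cantorFunction
    rw [← hsum.sum_add_tsum_nat_add n]
    gcongr
    have hg : Summable (fun i : ℕ => (1/4:ℝ)^(i+n)) :=
      (summable_nat_add_iff n).2 (summable_geometric_of_lt_one (by norm_num) (by norm_num))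
    refine ((summable_nat_add_iff n).2 hsum).tsum_le_tsum (fun i => hle (i+n)) hg |>.trans ?_
    simp_rw [pow_add]
    rw [tsum_mul_right, tsum_geometric_of_lt_one (by norm_num) (by norm_num)]
    have : (0:ℝ) < (1/4)^n := by positivity
    nlinarith

/-- shift -/
def em (i0 : ℕ) (b : ℕ → Bool) : ℕ → Bool := fun i =>
  if i < i0 then false else if i = i0 then true else b (i - i0 - 1)

lemma em_inj (i0 : ℕ) : Function.Injective (em i0) := by
  intro b b' h
  funext i
  have := congrFun h (i + i0 + 1)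
  unfold em at this
  have h1 : ¬ (i + i0 + 1 < i0) := by omega
  have h2 : ¬ (i + i0 + 1 = i0) := by omega
  have h3 : i + i0 + 1 - i0 - 1 = i := by omega
  simpa [h1, h2, h3] using this

lemma em_pos (i0 : ℕ) (b : ℕ → Bool) : 0 < Cardinal.cantorFunction (1/4) (em i0 b) := by
  have hsum := Cardinal.summable_cantor_function (em i0 b) (c := 1/4) (by norm_num) (by norm_num)
  have hnn : ∀ i, 0 ≤ Cardinal.cantorFunctionAux (1/4) (em i0 b) i := fun i =>
    Cardinal.cantorFunctionAux_nonneg (by norm_num)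
  refine lt_of_lt_of_le ?_ (hsum.le_tsum i0 (fun j _ => hnn j))
  have : em i0 b i0 = true := by unfold em; simp
  rw [Cardinal.cantorFunctionAux_true this]
  positivity

lemma em_le (i0 : ℕ) (b : ℕ → Bool) :
    Cardinal.cantorFunction (1/4) (em i0 b) ≤ 2 * (1/4)^i0 := by
  have hsum := Cardinal.summable_cantor_function (em i0 b) (c := 1/4) (by norm_num) (by norm_num)
  have hle : ∀ i, Cardinal.cantorFunctionAux (1/4) (em i0 b) i ≤ (1/4:ℝ)^i := by
    intro i
    unfold Cardinal.cantorFunctionAux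
    cases em i0 b i
    · simp only [cond_false]; positivity
    · simp
  unfold Cardinal.cantorFunction
  rw [← hsum.sum_add_tsum_nat_add i0]
  have h0 : ∑ i ∈ Finset.range i0, Cardinal.cantorFunctionAux (1/4) (em i0 b) i = 0 := by
    refine Finset.sum_eq_zero fun i hi => ?_
    apply Cardinal.cantorFunctionAux_false
    unfold em
    simp [Finset.mem_range.1 hi]
  rw [h0, zero_add]
  have hg : Summable (fun i : ℕ => (1/4:ℝ)^(i+i0)) :=
    (summable_nat_add_iff i0).2 (summable_geometric_of_lt_one (by norm_num) (by norm_num))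
  refine ((summable_nat_add_iff i0).2 hsum).tsum_le_tsum (fun i => hle (i+i0)) hg |>.trans ?_
  simp_rw [pow_add]
  rw [tsum_mul_right, tsum_geometric_of_lt_one (by norm_num) (by norm_num)]
  have : (0:ℝ) < (1/4)^i0 := by positivity
  nlinarith

lemma not_countable_cantor : ¬ Countable (ℕ → Bool) := by
  have h2 : Cardinal.mk (ℕ → Bool) = Cardinal.continuum := by simp
  intro h
  have h1 := Cardinal.mk_le_aleph0_iff.2 h
  rw [h2] at h1
  exact absurd h1 (not_le.2 Cardinal.aleph0_lt_continuum)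

/-- quantiles of the diffuse part -/
lemma Good.quantile [IsFiniteMeasure l] (hf : Measurable f) (hS : MeasurableSet S) {y : ℝ}
    (h : Good f l S y) {w : ℝ≥0∞} (hw0 : 0 < w) (hw : w < nuc f l S y univ) :
    ∃ x, x ∈ closure (S ∩ f ⁻¹' {y}) ∧ nuc f l S y (Iic x) = w := by
  have := h.finite
  have hfin : IsFiniteMeasure (nuc f l S y) := by unfold nuc; infer_instance
  set ν := nuc f l S y with hν
  have hmono : Monotone (fun x => ν (Iic x)) := fun x y h => measure_mono (Iic_subset_Iic.2 h)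
  set T := {x : ℝ | w ≤ ν (Iic x)} with hT
  have hTne : T.Nonempty := by
    have h1 := tendsto_measure_Iic_atTop ν
    obtain ⟨x, hx⟩ := (h1.eventually (lt_mem_nhds hw)).exists
    exact ⟨x, hx.le⟩
  obtain ⟨z0, hz0⟩ : ∃ z, ν (Iic z) < w := by
    have h1 : Tendsto (fun n : ℕ => ν (Iic (-(n:ℝ)))) atTop (𝓝 (ν (⋂ n : ℕ, Iic (-(n:ℝ))))) := by
      refine tendsto_measure_iInter_atTop (fun n => measurableSet_Iic.nullMeasurableSet) ?_
        ⟨0, measure_ne_top _ _⟩
      intro a b hab
      apply Iic_subset_Iic.2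
      simpa using hab
    have h2 : (⋂ n : ℕ, Iic (-(n:ℝ))) = ∅ := by
      rw [eq_empty_iff_forall_notMem]
      intro x hx
      rw [mem_iInter] at hx
      obtain ⟨n, hn⟩ := exists_nat_gt (-x)
      have := hx n
      rw [mem_Iic] at this
      linarith
    rw [h2, measure_empty] at h1
    obtain ⟨n, hn⟩ := (h1.eventually (gt_mem_nhds hw0)).exists
    exact ⟨_, hn⟩
  have hlow : ∀ x ∈ T, z0 < x := by
    intro x hx
    by_contra hcon
    exact absurd (hx.trans (hmono (not_lt.1 hcon))) (not_le.2 hz0)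
  have hbdd : BddBelow T := ⟨z0, fun x hx => (hlow x hx).le⟩
  set x := sInf T with hxdef
  have hbelow : ∀ z < x, ν (Iic z) < w := by
    intro z hz
    by_contra hcon
    exact absurd (csInf_le hbdd (not_lt.1 hcon : z ∈ T)) (not_le.2 hz)
  have hge : w ≤ ν (Iic x) := by
    by_contra hcon
    push Not at hcon
    obtain ⟨U, hU, hUo, hUc⟩ := Set.exists_isOpen_lt_of_lt (Iic x) w hcon
    obtain ⟨ε, hε, hb⟩ := Metric.isOpen_iff.1 hUo x (hU (mem_Iic.2 le_rfl))
    obtain ⟨t, ht, ht2⟩ := exists_lt_of_csInf_lt hTne (show sInf T < x + ε by linarith)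
    have h1 : Iic t ⊆ U := by
      intro z hz
      rcases le_or_gt z x with hzx | hzx
      · exact hU hzx
      · apply hb
        rw [Real.ball_eq_Ioo]
        exact ⟨by linarith, lt_of_le_of_lt hz ht2⟩
    exact absurd (ht.trans (measure_mono h1)) (not_le.2 hUc)
  have hle : ν (Iic x) ≤ w := by
    have h1 : Iic x = Iio x ∪ {x} := Iio_union_right.symm
    have h2 : Iio x = ⋃ n : ℕ, Iic (x - 1/((n:ℝ)+1)) := by
      ext z
      simp only [mem_Iio, mem_iUnion, mem_Iic]
      constructor
      · intro hz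
        obtain ⟨n, hn⟩ := exists_nat_one_div_lt (show 0 < x - z by linarith)
        exact ⟨n, by linarith⟩
      · rintro ⟨n, hn⟩
        have : (0:ℝ) < 1/((n:ℝ)+1) := by positivity
        linarith
    have hm : Monotone (fun n : ℕ => Iic (x - 1/((n:ℝ)+1))) := by
      intro a b hab
      apply Iic_subset_Iic.2
      have : 1/((b:ℝ)+1) ≤ 1/((a:ℝ)+1) := one_div_le_one_div_of_le (by positivity) (by
        have : (a:ℝ) ≤ b := by exact_mod_cast hab
        linarith)
      linarith
    rw [h1]
    refine (measure_union_le _ _).trans ?_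
    rw [h.nuc_atom x, add_zero, h2, hm.measure_iUnion]
    refine iSup_le fun n => (hbelow _ ?_).le
    have : (0:ℝ) < 1/((n:ℝ)+1) := by positivity
    linarith
  have heq : ν (Iic x) = w := le_antisymm hle hge
  -- the point lies in the closure of the fibre
  have hZ : IsClosed (closure (S ∩ f ⁻¹' {y})) := isClosed_closure
  have hZ0 : ν (closure (S ∩ f ⁻¹' {y}))ᶜ = 0 := by
    rw [hν]
    unfold nuc
    rw [Measure.restrict_apply hZ.measurableSet.compl]
    convert measure_empty (μ := nu f l y)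
    rw [eq_empty_iff_forall_notMem]
    rintro z ⟨hz1, hz2, hz3⟩
    exact hz1 (subset_closure ⟨hz2.1, hz3⟩)
  have hxZ : x ∈ closure (S ∩ f ⁻¹' {y}) := by
    by_contra hcon
    obtain ⟨ε, hε, hb⟩ := Metric.isOpen_iff.1 hZ.isOpen_compl x hcon
    have h1 : Iic x ⊆ Iic (x - ε/2) ∪ (closure (S ∩ f ⁻¹' {y}))ᶜ := by
      intro z hz
      rcases le_or_gt z (x - ε/2) with h2 | h2
      · exact Or.inl h2
      · right
        apply hb
        rw [Real.ball_eq_Ioo]
        exact ⟨by linarith, by have := mem_Iic.1 hz; linarith⟩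
    have h2 : ν (Iic x) < w := by
      refine lt_of_le_of_lt ((measure_mono h1).trans (measure_union_le _ _)) ?_
      rw [hZ0, add_zero]
      exact hbelow _ (by linarith)
    exact absurd hge (not_le.2 h2)
  exact ⟨x, hxZ, heq⟩

/-- values at points of the closure of a fibre where the function is continuous on `S` -/
lemma eq_of_closure {x y : ℝ} (hx : x ∈ closure (S ∩ f ⁻¹' {y}))
    (hc : ContinuousWithinAt f S x) : f x = y := by
  have h1 : f x ∈ closure (f '' (S ∩ f ⁻¹' {y})) :=
    (hc.mono inter_subset_left).mem_closure_image hx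
  have h2 : f '' (S ∩ f ⁻¹' {y}) ⊆ {y} := by
    rintro _ ⟨z, hz, rfl⟩
    exact hz.2
  have h3 := closure_mono h2 h1
  rw [closure_singleton] at h3
  exact h3

/-- every fibre that meets the diffuse part meets the null set -/
lemma Good.meets [IsFiniteMeasure l] (hf : Measurable f) (hS : MeasurableSet S) {y : ℝ}
    (hD : (S ∩ f ⁻¹' {y}).Countable ∨ (closure (S ∩ f ⁻¹' {y}) \ (S ∩ f ⁻¹' {y})).Countable)
    (h : Good f l S y) {x0 : ℝ} (hx0 : x0 ∈ Xc f l S) (hy : f x0 = y) :
    ∃ x ∈ NN f l S, f x = y := by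
  have := h.finite
  have hfin : IsFiniteMeasure (nuc f l S y) := by unfold nuc; infer_instance
  by_cases h0 : nuc f l S y univ = 0
  · refine ⟨x0, ⟨hx0, ?_⟩, hy⟩
    rw [h.FF_eq hf hS hy, ← h.nuc_iic,
      measure_mono_null (subset_univ _) h0]
    intro n
    refine ⟨0, by positivity, ?_, by simp⟩
    have : cc n 0 = 0 := by unfold cc; simp
    rw [this]; simp
  · replace hD : (closure (S ∩ f ⁻¹' {y}) \ (S ∩ f ⁻¹' {y})).Countable := by
      rcases hD with hD | hD
      · exfalso
        apply h0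
        have hna : NullSingletonClass (nuc f l S y) := ⟨h.nuc_atom⟩
        have h1 : nuc f l S y (S ∩ f ⁻¹' {y}) = 0 := hD.measure_zero _
        have h2 : nuc f l S y (S ∩ f ⁻¹' {y})ᶜ = 0 := by
          unfold nuc
          rw [Measure.restrict_apply hD.measurableSet.compl]
          convert measure_empty (μ := nu f l y)
          rw [eq_empty_iff_forall_notMem]
          rintro z ⟨hz1, hz2, hz3⟩
          exact hz1 ⟨hz2.1, hz3⟩
        rw [← union_compl_self (S ∩ f ⁻¹' {y})]
        exact measure_union_null h1 h2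
      · exact hD
    -- uncountably many quantiles
    have hM : 0 < (nuc f l S y univ).toReal := ENNReal.toReal_pos h0 (measure_ne_top _ _)
    obtain ⟨i0, hi0⟩ : ∃ i0 : ℕ, (1/4:ℝ)^i0 < (nuc f l S y univ).toReal / 2 :=
      exists_pow_lt_of_lt_one (by positivity) (by norm_num)
    have hq : ∀ b : ℕ → Bool, ∃ x, x ∈ closure (S ∩ f ⁻¹' {y}) ∧ nuc f l S y (Iic x) =
        ENNReal.ofReal (Cardinal.cantorFunction (1/4) (em i0 b)) := by
      intro b
      refine h.quantile hf hS (ENNReal.ofReal_pos.2 (em_pos i0 b)) ?_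
      rw [← ENNReal.ofReal_toReal (measure_ne_top (nuc f l S y) univ)]
      rw [ENNReal.ofReal_lt_ofReal_iff hM]
      have := em_le i0 b
      linarith
    choose φ hφ1 hφ3 using hq
    have hinj : Function.Injective φ := by
      intro b b' hbb
      have h1 := hφ3 b
      rw [hbb, hφ3 b'] at h1
      have h2 := (ENNReal.ofReal_eq_ofReal_iff (em_pos i0 b').le (em_pos i0 b).le).1 h1
      exact (em_inj i0 (Cardinal.cantorFunction_injective (by norm_num) (by norm_num) h2)).symm
    have hA : {x : ℝ | 0 < nu f l y {x}}.Countable := by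
      have := countable_meas_level_set_pos (μ := nu f l y) (measurable_id : Measurable (id : ℝ → ℝ))
      simpa using this
    obtain ⟨b, hb, hbc⟩ : ∃ b, nu f l y {φ b} = 0 ∧ φ b ∈ S ∩ f ⁻¹' {y} := by
      by_contra hcon
      push Not at hcon
      apply not_countable_cantor
      have hc : Countable ↑({x : ℝ | 0 < nu f l y {x}} ∪
          (closure (S ∩ f ⁻¹' {y}) \ (S ∩ f ⁻¹' {y})) : Set ℝ) := (hA.union hD).to_subtype
      have hmem : ∀ b, φ b ∈ ({x : ℝ | 0 < nu f l y {x}} ∪
          (closure (S ∩ f ⁻¹' {y}) \ (S ∩ f ⁻¹' {y})) : Set ℝ) := by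
        intro b
        by_cases h1 : nu f l y {φ b} = 0
        · exact Or.inr ⟨hφ1 b, hcon b h1⟩
        · exact Or.inl (pos_iff_ne_zero.2 h1)
      let ψ : (ℕ → Bool) → ({x : ℝ | 0 < nu f l y {x}} ∪
          (closure (S ∩ f ⁻¹' {y}) \ (S ∩ f ⁻¹' {y})) : Set ℝ) := fun b => ⟨φ b, hmem b⟩
      have hψ : Function.Injective ψ := fun b b' hbb => hinj (congrArg Subtype.val hbb)
      exact hψ.countable
    have hφ2 : f (φ b) = y := hbc.2
    refine ⟨φ b, ⟨⟨hbc.1, ?_, ?_⟩, ?_⟩, hφ2⟩
    · rw [hφ2, h.un]; exact h.fin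
    · rw [h.gg_eq hφ2]; exact hb
    · rw [h.FF_eq hf hS hφ2, ← h.nuc_iic, hφ3 b]
      exact cantor_mem _

/-- the set `NN` is null -/
theorem NN_null [IsFiniteMeasure l] (hf : Measurable f) (hS : MeasurableSet S) (hl : l Sᶜ = 0) :
    l (NN f l S) = 0 := by
  refine null_of_nu hf (measurableSet_NN hf hS) (fun x hx => hx.1.2.1) ?_
  filter_upwards [good_ae hf hS hl] with y hy
  exact hy.NN_null hf hS

/-- if the image of `NN` is null, then images of null subsets of `S` are null -/
theorem luzin [IsFiniteMeasure l] (hf : Measurable f) (hS : MeasurableSet S)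
    (hD : ∀ᵐ y ∂(volume : Measure ℝ),
      (S ∩ f ⁻¹' {y}).Countable ∨ (closure (S ∩ f ⁻¹' {y}) \ (S ∩ f ⁻¹' {y})).Countable)
    (hl : l Sᶜ = 0)
    (hN : volume (f '' NN f l S) = 0) {A : Set ℝ} (hAS : A ⊆ S) (hA : l A = 0) :
    volume (f '' A) = 0 := by
  have hA' : l (toMeasurable l A) = 0 := by rw [measure_toMeasurable]; exact hA
  have hT : MeasurableSet {p : ℝ × ℝ | p.2 ∈ toMeasurable l A} :=
    measurable_snd (measurableSet_toMeasurable l A)
  have e1 := nu_null (f := f) (l := l) hT (by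
    rw [rho_apply hf hT]
    exact hA')
  have e2 := good_ae hf hS hl
  have e3 : ∀ᵐ y ∂(volume : Measure ℝ), y ∉ f '' NN f l S := measure_eq_zero_iff_ae_notMem.1 hN
  refine measure_mono_null (t := {y | ¬ (nu f l y {x | (y, x) ∈ {p : ℝ × ℝ |
    p.2 ∈ toMeasurable l A}} = 0 ∧ Good f l S y ∧ y ∉ f '' NN f l S ∧
      ((S ∩ f ⁻¹' {y}).Countable ∨ (closure (S ∩ f ⁻¹' {y}) \ (S ∩ f ⁻¹' {y})).Countable))}) ?_ ?_
  · rintro _ ⟨x, hx, rfl⟩ ⟨h1, h2, h3, h4⟩
    by_cases hxc : x ∈ Xc f l S
    · obtain ⟨z, hz, hz2⟩ := h2.meets hf hS h4 hxc rfl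
      exact h3 ⟨z, hz, hz2⟩
    · apply hxc
      refine ⟨hAS hx, ?_, ?_⟩
      · rw [h2.un]; exact h2.fin
      · rw [h2.gg_eq rfl]
        refine measure_mono_null ?_ h1
        intro z hz
        rw [mem_singleton_iff] at hz
        subst hz
        exact subset_toMeasurable l A hx
  · rw [← ae_iff]
    filter_upwards [e1, e2, e3, hD] with y h1 h2 h3 h4
    exact ⟨h1, h2, h3, h4⟩

end

end Pool.Agent.Y588.LN
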