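import Pool.Agent.Y588.LN.MQ

set_option autoImplicit false
set_option linter.unusedVariables false
set_option linter.unusedSectionVars false

/-! Relations that are analytic and coanalytic, on Baire space and on the reals. -/

namespace Pool.Agent.Y588.LN

open Pool.Agent.Helper743 (RecT pre join)
open Pool.Agent.H166R3.HD
open MeasureTheory Filter Topology
open scoped Classical

variable [Orc]

/-- analytic and coanalytic relations -/
def Del (Q : BP) : Prop := Sig Q ∧ Sig (fun k p => ¬ Q k p)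

section
variable {Q Q' : BP}

lemma Del.congr (hQ : Del Q) (h : ∀ k p, Q k p ↔ Q' k p) : Del Q' :=
  ⟨hQ.1.congr h, hQ.2.congr fun k p => not_congr (h k p)⟩

lemma Del.not (hQ : Del Q) : Del (fun k p => ¬ Q k p) :=
  ⟨hQ.2, hQ.1.congr fun k p => not_not.symm⟩

lemma Del.and (hQ : Del Q) (hQ' : Del Q') : Del (fun k p => Q k p ∧ Q' k p) :=
  ⟨hQ.1.and hQ'.1, (hQ.2.or hQ'.2).congr fun k p => not_and_or.symm⟩

lemma Del.or (hQ : Del Q) (hQ' : Del Q') : Del (fun k p => Q k p ∨ Q' k p) :=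
  ⟨hQ.1.or hQ'.1, (hQ.2.and hQ'.2).congr fun k p => not_or.symm⟩

lemma Del.imp (hQ : Del Q) (hQ' : Del Q') : Del (fun k p => Q k p → Q' k p) :=
  (hQ.not.or hQ').congr fun k p => imp_iff_not_or.symm

lemma Del.ex (hQ : Del Q) : Del (fun k p => ∃ m, Q (Nat.pair k m) p) :=
  ⟨hQ.1.ex, hQ.2.all.congr fun k p => not_exists.symm⟩

lemma Del.all (hQ : Del Q) : Del (fun k p => ∀ m, Q (Nat.pair k m) p) :=
  ⟨hQ.1.all, hQ.2.ex.congr fun k p => not_forall.symm⟩

lemma Del.num (hQ : Del Q) {c : ℕ → ℕ} (hc : RecT OO c) : Del (fun k p => Q (c k) p) :=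
  ⟨hQ.1.num hc, hQ.2.num hc⟩

lemma Del.subst (hQ : Del Q) {φ : ℕ → ℕ} (hφ : RecT OO φ) :
    Del (fun k p => Q k (fun i => φ (Nat.pair k (Nat.pair i (mk (i+1) p))))) :=
  ⟨hQ.1.subst hφ, hQ.2.subst hφ⟩

lemma Del.base {r : ℕ → Prop} (hr : RP OO r) {u : ℕ → ℕ} (hu : RecT OO u) :
    Del (fun k p => r (Nat.pair k (mk (u k) p))) :=
  ⟨Sig.base hr hu, Sig.base (RP.not hr) hu⟩

lemma Del.rp {r : ℕ → Prop} (hr : RP OO r) : Del (fun k _ => r k) := by
  refine (Del.base (r := fun z => r z.unpair.1) (RP.comp hr (RecT.fst recT_id))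
    (recT_const 0)).congr fun k p => ?_
  simp

lemma Del.meas (hQ : Del Q) (hm : ∀ k p, MeasurableSet {b | Q k (J2 p b)}) {e : ℕ → ℝ}
    (he : RQ e) : Del (fun k p => e k < cm.real {b | Q k (J2 p b)}) := by
  refine ⟨hQ.1.meas he, ?_⟩
  have h1 : Sig (fun k p => (1 - e k.unpair.1 - 1 / ((k.unpair.2:ℝ)+1)) <
      cm.real {b | ¬ Q k.unpair.1 (J2 p b)}) := by
    refine Sig.meas (Q := fun k p => ¬ Q k.unpair.1 p) (hQ.2.num (RecT.fst recT_id)) ?_
    exact ((RQ.cst 1).congr (fun z => by norm_num)).sub (he.comp (RecT.fst recT_id)) |>.sub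
      (RQ.inv1 (RecT.snd recT_id))
  refine h1.all.congr fun k p => ?_
  simp only [Nat.unpair_pair]
  have h2 : cm.real {b | ¬ Q k (J2 p b)} = 1 - cm.real {b | Q k (J2 p b)} := by
    have := probReal_compl_eq_one_sub (μ := cm) (hm k p)
    exact this
  rw [h2]
  constructor
  · intro h hlt
    obtain ⟨m, hm⟩ := exists_inv_lt hlt
    have := h m
    linarith
  · intro h m
    have : (0:ℝ) < 1 / ((m:ℝ)+1) := by positivity
    have h' := not_lt.1 h
    linarith

end

/-- fast names of reals -/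
def IsName (p : ℕ → ℕ) (x : ℝ) : Prop := ∀ n, |rat (p n) - x| ≤ (1/2)^n

lemma IsName.unique {p : ℕ → ℕ} {x y : ℝ} (hx : IsName p x) (hy : IsName p y) : x = y := by
  by_contra hne
  have hpos : 0 < |x - y| := abs_pos.2 (sub_ne_zero.2 hne)
  obtain ⟨n, hn⟩ := exists_pow_lt_of_lt_one (half_pos hpos) (by norm_num : (1/2:ℝ) < 1)
  have h1 := hx n
  have h2 := hy n
  have h3 : |x - y| ≤ |rat (p n) - x| + |rat (p n) - y| := by
    have : x - y = -(rat (p n) - x) + (rat (p n) - y) := by ring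
    rw [this]
    refine (abs_add_le _ _).trans ?_
    rw [abs_neg]
  linarith

lemma exists_name (x : ℝ) : ∃ p : ℕ → ℕ, ∀ n, |rat (p n) - x| < (1/2)^n := by
  have : ∀ n : ℕ, ∃ m, |rat m - x| < (1/2)^n := by
    intro n
    have hpos : (0:ℝ) < (1/2)^n := by positivity
    obtain ⟨m, h1, h2⟩ := exists_rat_btwn (show x < x + (1/2)^n by linarith)
    refine ⟨m, ?_⟩
    rw [abs_lt]; constructor <;> linarith
  choose p hp using this
  exact ⟨p, hp⟩

/-- being a name -/
def Val (p : ℕ → ℕ) : Prop := ∃ x, IsName p x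

lemma val_iff (p : ℕ → ℕ) : Val p ↔ ∀ n m, |rat (p n) - rat (p m)| ≤ (1/2)^n + (1/2)^m := by
  constructor
  · rintro ⟨x, hx⟩ n m
    have : rat (p n) - rat (p m) = (rat (p n) - x) - (rat (p m) - x) := by ring
    rw [this]
    exact (abs_sub _ _).trans (add_le_add (hx n) (hx m))
  · intro h
    have hc : CauchySeq (fun n => rat (p n)) := by
      rw [Metric.cauchySeq_iff']
      intro ε hε
      obtain ⟨n, hn⟩ := exists_pow_lt_of_lt_one (half_pos hε) (by norm_num : (1/2:ℝ) < 1)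
      refine ⟨n, fun m hm => ?_⟩
      rw [Real.dist_eq]
      have h1 := h m n
      have h2 : (1/2:ℝ)^m ≤ (1/2)^n := pow_le_pow_of_le_one (by norm_num) (by norm_num) hm
      linarith
    obtain ⟨x, hx⟩ := cauchySeq_tendsto_of_complete hc
    refine ⟨x, fun n => ?_⟩
    have h1 : Tendsto (fun m => |rat (p n) - rat (p m)|) atTop (𝓝 |rat (p n) - x|) :=
      (tendsto_const_nhds.sub hx).abs
    have h2 : Tendsto (fun m : ℕ => (1/2:ℝ)^n + (1/2)^m) atTop (𝓝 ((1/2)^n + 0)) :=
      tendsto_const_nhds.add (tendsto_pow_atTop_nhds_zero_of_lt_one (by norm_num) (by norm_num))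
    rw [add_zero] at h2
    exact le_of_tendsto_of_tendsto' h1 h2 (h n)

lemma del_val : Del (fun _ p => Val p) := by
  have h1 : Del (fun k p => |rat (p k.unpair.1.unpair.2) - rat (p k.unpair.2)| ≤
      (1/2)^k.unpair.1.unpair.2 + (1/2)^k.unpair.2) := by
    refine (Del.base (u := fun k => k.unpair.1.unpair.2 + k.unpair.2 + 1) (r := fun z =>
      |rat (lget z.unpair.2 z.unpair.1.unpair.1.unpair.2) -
        rat (lget z.unpair.2 z.unpair.1.unpair.2)| ≤
      (1/2)^z.unpair.1.unpair.1.unpair.2 + (1/2)^z.unpair.1.unpair.2) ?_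
      (RecT.add (RecT.add (RecT.snd (RecT.fst recT_id)) (RecT.snd recT_id))
        (recT_const 1))).congr fun k p => ?_
    · have s1 := RecT.snd (O := OO) (RecT.fst (RecT.fst recT_id))
      have s2 := RecT.snd (O := OO) (RecT.fst recT_id)
      exact RQ.abs (RQ.sub (RQ.rat (RecT.lget (RecT.snd recT_id) s1))
        (RQ.rat (RecT.lget (RecT.snd recT_id) s2))) (RQ.add (RQ.halfpow s1) (RQ.halfpow s2))
    · simp only [Nat.unpair_pair]
      rw [lget_mk (by omega), lget_mk (by omega)]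
  refine h1.all.all.congr fun k p => ?_
  simp only [Nat.unpair_pair]
  rw [val_iff]

/-- the relation on names induced by a relation on reals -/
def NR (P : ℕ → ℝ → Prop) : BP := fun k p => ∃ x, IsName p x ∧ P k x

/-- relations on reals that are analytic and coanalytic -/
def DelR (P : ℕ → ℝ → Prop) : Prop := Del (NR P)

lemma NR_iff {P : ℕ → ℝ → Prop} {p : ℕ → ℕ} {x : ℝ} (h : IsName p x) (k : ℕ) :
    NR P k p ↔ P k x := by
  constructor
  · rintro ⟨y, hy, hP⟩
    rw [h.unique hy]; exact hP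
  · intro hP; exact ⟨x, h, hP⟩

lemma DelR.mk' {P : ℕ → ℝ → Prop} {Q : BP} (hQ : Del Q)
    (h : ∀ k p x, IsName p x → (Q k p ↔ P k x)) : DelR P := by
  refine (del_val.and hQ).congr fun k p => ?_
  constructor
  · rintro ⟨⟨x, hx⟩, hq⟩
    exact ⟨x, hx, (h k p x hx).1 hq⟩
  · rintro ⟨x, hx, hP⟩
    exact ⟨⟨x, hx⟩, (h k p x hx).2 hP⟩

section
variable {P P' : ℕ → ℝ → Prop}

lemma DelR.congr (hP : DelR P) (h : ∀ k x, P k x ↔ P' k x) : DelR P' :=
  DelR.mk' hP fun k p x hx => (NR_iff hx k).trans (h k x)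

lemma DelR.not (hP : DelR P) : DelR (fun k x => ¬ P k x) :=
  DelR.mk' (Del.not hP) fun k p x hx => not_congr (NR_iff hx k)

lemma DelR.and (hP : DelR P) (hP' : DelR P') : DelR (fun k x => P k x ∧ P' k x) :=
  DelR.mk' (Del.and hP hP') fun k p x hx => and_congr (NR_iff hx k) (NR_iff hx k)

lemma DelR.or (hP : DelR P) (hP' : DelR P') : DelR (fun k x => P k x ∨ P' k x) :=
  DelR.mk' (Del.or hP hP') fun k p x hx => or_congr (NR_iff hx k) (NR_iff hx k)

lemma DelR.imp (hP : DelR P) (hP' : DelR P') : DelR (fun k x => P k x → P' k x) :=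
  DelR.mk' (Del.imp hP hP') fun k p x hx => imp_congr (NR_iff hx k) (NR_iff hx k)

lemma DelR.ex (hP : DelR P) : DelR (fun k x => ∃ m, P (Nat.pair k m) x) :=
  DelR.mk' (Del.ex hP) fun k p x hx => exists_congr fun m => NR_iff hx _

lemma DelR.all (hP : DelR P) : DelR (fun k x => ∀ m, P (Nat.pair k m) x) :=
  DelR.mk' (Del.all hP) fun k p x hx => forall_congr' fun m => NR_iff hx _

lemma DelR.num (hP : DelR P) {c : ℕ → ℕ} (hc : RecT OO c) : DelR (fun k x => P (c k) x) :=
  DelR.mk' (Del.num hP hc) fun k p x hx => NR_iff hx _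

lemma DelR.rp {r : ℕ → Prop} (hr : RP OO r) : DelR (fun k _ => r k) :=
  DelR.mk' (Del.rp hr) fun _ _ _ _ => Iff.rfl

end

/-- computable real functions: a machine with oracle `p` and input `n` looks at longer and longer
parts of `p` and returns the first value found; the machine may use the oracle of `OO` -/
def CompF (f : ℝ → ℝ) : Prop := ∃ Φ : ℕ → ℕ, RecT OO Φ ∧
  ∀ p x, IsName p x → ∃ q, IsName q (f x) ∧
    ∀ n, ∃ k, Φ (Nat.pair (mk k p) n) = q n + 1 ∧ ∀ j < k, Φ (Nat.pair (mk j p) n) = 0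

/-- the length of a coded list -/
def len (s : ℕ) : ℕ := ((Encodable.decode (α := List ℕ) s).getD []).length

lemma len_mk (n : ℕ) (H : ℕ → ℕ) : len (mk n H) = n := by
  simp only [len, mk, Encodable.encodek, Option.getD_some, List.length_map, List.length_range]

lemma recT_len {s : ℕ → ℕ} (hs : RecT OO s) : RecT OO (fun z => len (s z)) := by
  refine RecT.comp (recT_prim ?_) hs
  exact Primrec.list_length.comp (Primrec.option_getD.comp Primrec.decode (Primrec.const []))

lemma compF_id : CompF (fun x => x) := by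
  have h1 : RP OO (fun z => z.unpair.2 < len z.unpair.1) :=
    RP.lt (RecT.snd recT_id) (recT_len (RecT.fst recT_id))
  have h2 : RecT OO (fun z => (if z.unpair.2 < len z.unpair.1 then 1 else 0) *
      (lget z.unpair.1 z.unpair.2 + 1)) :=
    RecT.mul (RecT.congr h1 fun z => by split_ifs <;> rfl) (RecT.add (RecT.lget (RecT.fst recT_id) (RecT.snd recT_id)) (recT_const 1))
  refine ⟨_, h2, fun p x hx => ⟨p, hx, fun n => ⟨n+1, ?_, fun j hj => ?_⟩⟩⟩
  · simp only [Nat.unpair_pair, len_mk]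
    rw [lget_mk (Nat.lt_succ_self n), if_pos (Nat.lt_succ_self n), one_mul]
  · simp only [Nat.unpair_pair, len_mk]
    rw [if_neg (by omega), zero_mul]

section
variable {f : ℝ → ℝ}

/-- a general comparison with the value of a computable function -/
lemma delR_aux (hf : CompF f) {s : ℕ → ℕ → ℕ → Prop}
    (hs : RP OO (fun z => s z.unpair.1 z.unpair.2.unpair.1 z.unpair.2.unpair.2))
    {P : ℕ → ℝ → Prop} (h1 : ∀ k x q, IsName q (f x) → ((∃ n, s k n (q n)) ↔ P k x)) :
    DelR P := by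
  obtain ⟨Φ, hΦ, hf⟩ := hf
  -- `z = pair k (pair n j)`
  let E : ℕ → ℕ → ℕ → ℕ := fun n t j => Φ (Nat.pair (mk j (lget t)) n)
  have hE : ∀ {n t j : ℕ → ℕ}, RecT OO n → RecT OO t → RecT OO j →
      RecT OO (fun z => E (n z) (t z) (j z)) := by
    intro n t j hn ht hj
    have h2 : RecT OO (fun z => mk (j z) (lget (t z))) := by
      refine RecT.congr (RecT.mk (H := fun w => lget (t w.unpair.1) w.unpair.2) hj
        (RecT.lget (RecT.comp ht (RecT.fst recT_id)) (RecT.snd recT_id))) (fun z => by simp)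
    exact RecT.comp hΦ (RecT.pair h2 hn)
  let r : ℕ → Prop := fun w => (E w.unpair.1.unpair.2.unpair.1 w.unpair.2
      w.unpair.1.unpair.2.unpair.2 ≠ 0 ∧ s w.unpair.1.unpair.1 w.unpair.1.unpair.2.unpair.1
      (E w.unpair.1.unpair.2.unpair.1 w.unpair.2 w.unpair.1.unpair.2.unpair.2 - 1)) ∧
      ∀ j < w.unpair.1.unpair.2.unpair.2, E w.unpair.1.unpair.2.unpair.1 w.unpair.2 j = 0
  have hr : RP OO r := by
    have n1 := RecT.fst (O := OO) (RecT.snd (RecT.fst recT_id))
    have j1 := RecT.snd (O := OO) (RecT.snd (RecT.fst recT_id))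
    have t1 := RecT.snd (O := OO) recT_id
    have e1 := hE n1 t1 j1
    refine RP.and (RP.and (RP.not (RP.eq e1 (recT_const 0))) ?_) ?_
    · refine RP.congr (RP.comp hs (RecT.pair (RecT.fst (RecT.fst recT_id))
        (RecT.pair n1 (RecT.sub e1 (recT_const 1))))) (fun z => by simp)
    · have e2 := hE (RecT.comp n1 (RecT.fst (O := OO) recT_id))
        (RecT.comp t1 (RecT.fst (O := OO) recT_id)) (RecT.snd (O := OO) recT_id)
      refine RP.congr (RP.ball (RP.eq e2 (recT_const 0)) j1) (fun z => by simp)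
  have hD : Del (fun k p => ∃ m, r (Nat.pair (Nat.pair k m) (mk m.unpair.2 p))) := by
    have := (Del.base hr (u := fun z => z.unpair.2.unpair.2) (RecT.snd (RecT.snd recT_id))).ex
    exact this.congr fun k p => by simp
  refine DelR.mk' hD fun k p x hx => ?_
  obtain ⟨q, hq, hqn⟩ := hf p x hx
  rw [← h1 k x q hq]
  have hpre : ∀ m j, j ≤ m → mk j (lget (mk m p)) = mk j p := fun m j hj => mk_lget hj p
  constructor
  · rintro ⟨m, ⟨h2, h3⟩, h4⟩
    simp only [Nat.unpair_pair, E] at h2 h3 h4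
    obtain ⟨j, hj1, hj2⟩ := hqn m.unpair.1
    have hjm : j = m.unpair.2 := by
      rcases lt_trichotomy j m.unpair.2 with h | h | h
      · have := h4 j h
        rw [hpre _ _ h.le, hj1] at this
        simp at this
      · exact h
      · rw [hpre _ _ le_rfl, hj2 _ h] at h2
        simp at h2
    rw [hpre _ _ le_rfl, ← hjm, hj1] at h3
    exact ⟨m.unpair.1, by simpa using h3⟩
  · rintro ⟨n, hn⟩
    obtain ⟨j, hj1, hj2⟩ := hqn n
    refine ⟨Nat.pair n j, ⟨?_, ?_⟩, ?_⟩
    · simp only [Nat.unpair_pair, E]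
      rw [hpre _ _ le_rfl, hj1]; simp
    · simp only [Nat.unpair_pair, E]
      rw [hpre _ _ le_rfl, hj1]; simpa using hn
    · simp only [Nat.unpair_pair, E]
      intro i hi
      rw [hpre _ _ hi.le, hj2 i hi]

lemma delR_lt (hf : CompF f) {c : ℕ → ℕ} (hc : RecT OO c) : DelR (fun k x => f x < rat (c k)) := by
  refine delR_aux hf (s := fun k n m => rat m + (1/2)^n < rat (c k)) ?_ fun k x q hq => ?_
  · exact RQ.lt (RQ.add (RQ.rat (RecT.snd (RecT.snd recT_id)))
      (RQ.halfpow (RecT.fst (RecT.snd recT_id)))) (RQ.rat (RecT.comp hc (RecT.fst recT_id)))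
  · constructor
    · rintro ⟨n, hn⟩
      have := (abs_le.1 (hq n)).1
      linarith
    · intro h
      obtain ⟨n, hn⟩ := exists_pow_lt_of_lt_one (half_pos (sub_pos.2 h)) (by norm_num : (1/2:ℝ) < 1)
      refine ⟨n, ?_⟩
      have := (abs_le.1 (hq n)).2
      linarith

lemma delR_gt (hf : CompF f) {c : ℕ → ℕ} (hc : RecT OO c) : DelR (fun k x => rat (c k) < f x) := by
  refine delR_aux hf (s := fun k n m => rat (c k) + (1/2)^n < rat m) ?_ fun k x q hq => ?_
  · exact RQ.lt (RQ.add (RQ.rat (RecT.comp hc (RecT.fst recT_id)))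
      (RQ.halfpow (RecT.fst (RecT.snd recT_id)))) (RQ.rat (RecT.snd (RecT.snd recT_id)))
  · constructor
    · rintro ⟨n, hn⟩
      have := (abs_le.1 (hq n)).2
      linarith
    · intro h
      obtain ⟨n, hn⟩ := exists_pow_lt_of_lt_one (half_pos (sub_pos.2 h)) (by norm_num : (1/2:ℝ) < 1)
      refine ⟨n, ?_⟩
      have := (abs_le.1 (hq n)).1
      linarith

lemma delR_idlt {c : ℕ → ℕ} (hc : RecT OO c) : DelR (fun k x => x < rat (c k)) :=
  delR_lt compF_id hc
lemma delR_idgt {c : ℕ → ℕ} (hc : RecT OO c) : DelR (fun k x => rat (c k) < x) :=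
  delR_gt compF_id hc

/-- computable functions are continuous -/
lemma CompF.continuous (hf : CompF f) : Continuous f := by
  obtain ⟨Φ, hΦ, hf⟩ := hf
  rw [Metric.continuous_iff]
  intro x ε hε
  obtain ⟨n, hn⟩ := exists_pow_lt_of_lt_one (half_pos hε) (by norm_num : (1/2:ℝ) < 1)
  obtain ⟨p, hp⟩ := exists_name x
  obtain ⟨q, hq, hqn⟩ := hf p x (fun i => (hp i).le)
  obtain ⟨k, hk1, hk2⟩ := hqn n
  -- a neighbourhood on which the first `k` entries remain correct
  have hev : ∀ᶠ y in 𝓝 x, ∀ i ∈ Finset.range k, |rat (p i) - y| < (1/2)^i := by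
    rw [Filter.eventually_all_finset]
    intro i _
    have hc : Continuous (fun y => |rat (p i) - y|) := (continuous_const.sub continuous_id).abs
    exact hc.continuousAt.eventually (gt_mem_nhds (hp i))
  obtain ⟨δ, hδ, hball⟩ := Metric.eventually_nhds_iff.1 hev
  refine ⟨δ, hδ, fun y hy => ?_⟩
  have hy' := hball hy
  obtain ⟨p', hp'⟩ := exists_name y
  let p'' : ℕ → ℕ := fun i => if i < k then p i else p' i
  have hp'' : IsName p'' y := by
    intro i
    by_cases hi : i < k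
    · simp only [p'', hi, if_true]; exact (hy' i (Finset.mem_range.2 hi)).le
    · simp only [p'', hi, if_false]; exact (hp' i).le
  have hpre : ∀ j ≤ k, mk j p'' = mk j p := by
    intro j hj
    refine mk_congr fun i hi => ?_
    simp only [p'', show i < k by omega, if_true]
  obtain ⟨q', hq', hqn'⟩ := hf p'' y hp''
  obtain ⟨k', hk1', hk2'⟩ := hqn' n
  have hkk : k' = k := by
    rcases lt_trichotomy k' k with h | h | h
    · rw [hpre k' h.le, hk2 k' h] at hk1'
      cases hk1'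
    · exact h
    · have := hk2' k h
      rw [hpre k le_rfl, hk1] at this
      cases this
  subst hkk
  rw [hpre k' le_rfl, hk1] at hk1'
  have hqq : q n = q' n := by simpa using hk1'
  have h1 := abs_le.1 (hq n)
  have h2 := abs_le.1 (hq' n)
  rw [← hqq] at h2
  rw [Real.dist_eq, abs_lt]
  constructor <;> linarith [h1.1, h1.2, h2.1, h2.2]

end

end Pool.Agent.Y588.LN
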