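import Pool.Agent.Y588.LN.Sig

set_option autoImplicit false
set_option linter.unusedVariables false
set_option linter.unusedSectionVars false

/-! Computable rational valued functions. -/

namespace Pool.Agent.Y588.LN

open Pool.Agent.Helper743 (RecT pre join)
open Pool.Agent.H166R3.HD
open scoped Classical

variable [Orc]

/-- computable rational valued functions -/
def RQ (e : ℕ → ℝ) : Prop := ∃ a b c : ℕ → ℕ, RecT OO a ∧ RecT OO b ∧ RecT OO c ∧
  ∀ z, e z = ((a z : ℝ) - b z) / ((c z : ℝ) + 1)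

variable {e e' : ℕ → ℝ}

lemma RQ.congr (he : RQ e) (h : ∀ z, e z = e' z) : RQ e' := by
  have : e = e' := funext h
  subst this; exact he

lemma RQ.comp (he : RQ e) {f : ℕ → ℕ} (hf : RecT OO f) : RQ (fun z => e (f z)) := by
  obtain ⟨a, b, c, ha, hb, hc, h⟩ := he
  exact ⟨_, _, _, RecT.comp ha hf, RecT.comp hb hf, RecT.comp hc hf, fun z => h (f z)⟩

lemma RQ.nat {a : ℕ → ℕ} (ha : RecT OO a) : RQ (fun z => (a z : ℝ)) :=
  ⟨a, fun _ => 0, fun _ => 0, ha, recT_const 0, recT_const 0, fun z => by simp⟩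

lemma RQ.cst (n : ℕ) : RQ (fun _ => (n : ℝ)) := RQ.nat (recT_const n)

lemma RQ.neg (he : RQ e) : RQ (fun z => - e z) := by
  obtain ⟨a, b, c, ha, hb, hc, h⟩ := he
  exact ⟨b, a, c, hb, ha, hc, fun z => by beta_reduce; rw [h z, ← neg_div, neg_sub]⟩

lemma RQ.add (he : RQ e) (he' : RQ e') : RQ (fun z => e z + e' z) := by
  obtain ⟨a, b, c, ha, hb, hc, h⟩ := he
  obtain ⟨a', b', c', ha', hb', hc', h'⟩ := he'
  refine ⟨fun z => a z * (c' z + 1) + a' z * (c z + 1), fun z => b z * (c' z + 1) + b' z * (c z + 1),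
    fun z => c z * c' z + (c z + c' z), ?_, ?_, ?_, fun z => ?_⟩
  · exact RecT.add (RecT.mul ha (RecT.add hc' (recT_const 1)))
      (RecT.mul ha' (RecT.add hc (recT_const 1)))
  · exact RecT.add (RecT.mul hb (RecT.add hc' (recT_const 1)))
      (RecT.mul hb' (RecT.add hc (recT_const 1)))
  · exact RecT.add (RecT.mul hc hc') (RecT.add hc hc')
  · beta_reduce
    rw [h z, h' z]
    push_cast
    have h1 : (c z : ℝ) + 1 ≠ 0 := by positivity
    have h2 : (c' z : ℝ) + 1 ≠ 0 := by positivity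
    have h3 : (c z : ℝ) * c' z + (c z + c' z) + 1 = (c z + 1) * (c' z + 1) := by ring
    rw [h3]
    field_simp
    ring

lemma RQ.sub (he : RQ e) (he' : RQ e') : RQ (fun z => e z - e' z) :=
  (he.add he'.neg).congr fun z => by ring

lemma RQ.mul (he : RQ e) (he' : RQ e') : RQ (fun z => e z * e' z) := by
  obtain ⟨a, b, c, ha, hb, hc, h⟩ := he
  obtain ⟨a', b', c', ha', hb', hc', h'⟩ := he'
  refine ⟨fun z => a z * a' z + b z * b' z, fun z => a z * b' z + b z * a' z,
    fun z => c z * c' z + (c z + c' z), ?_, ?_, ?_, fun z => ?_⟩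
  · exact RecT.add (RecT.mul ha ha') (RecT.mul hb hb')
  · exact RecT.add (RecT.mul ha hb') (RecT.mul hb ha')
  · exact RecT.add (RecT.mul hc hc') (RecT.add hc hc')
  · beta_reduce
    rw [h z, h' z]
    push_cast
    have h1 : (c z : ℝ) + 1 ≠ 0 := by positivity
    have h2 : (c' z : ℝ) + 1 ≠ 0 := by positivity
    have h3 : (c z : ℝ) * c' z + (c z + c' z) + 1 = (c z + 1) * (c' z + 1) := by ring
    rw [h3]
    field_simp
    ring

lemma RQ.inv1 {c : ℕ → ℕ} (hc : RecT OO c) : RQ (fun z => 1 / ((c z : ℝ) + 1)) :=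
  ⟨fun _ => 1, fun _ => 0, c, recT_const 1, recT_const 0, hc, fun z => by simp⟩

lemma RQ.invpow {b : ℕ} (hb : 1 ≤ b) {c : ℕ → ℕ} (hc : RecT OO (fun z => b ^ c z)) :
    RQ (fun z => (1 / (b : ℝ)) ^ (c z)) := by
  refine (RQ.inv1 (RecT.sub hc (recT_const 1))).congr fun z => ?_
  have : 1 ≤ b ^ c z := Nat.one_le_pow _ _ hb
  push_cast [Nat.cast_sub this]
  rw [sub_add_cancel, one_div_pow]

lemma RQ.halfpow {c : ℕ → ℕ} (hc : RecT OO c) : RQ (fun z => (1 / 2 : ℝ) ^ (c z)) := by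
  have := RQ.invpow (b := 2) (by norm_num) (RecT.twopow hc)
  exact this.congr fun z => by norm_num

lemma RQ.le (he : RQ e) (he' : RQ e') : RP OO (fun z => e z ≤ e' z) := by
  obtain ⟨a, b, c, ha, hb, hc, h⟩ := he
  obtain ⟨a', b', c', ha', hb', hc', h'⟩ := he'
  have : RP OO (fun z => a z * (c' z + 1) + b' z * (c z + 1) ≤
      a' z * (c z + 1) + b z * (c' z + 1)) := by
    refine RP.le (RecT.add (RecT.mul ha (RecT.add hc' (recT_const 1)))
      (RecT.mul hb' (RecT.add hc (recT_const 1)))) (RecT.add (RecT.mul ha' (RecT.add hc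
      (recT_const 1))) (RecT.mul hb (RecT.add hc' (recT_const 1))))
  refine this.congr fun z => ?_
  rw [h z, h' z, div_le_div_iff₀ (by positivity) (by positivity)]
  rw [← Nat.cast_le (α := ℝ)]
  push_cast
  constructor
  · intro h; nlinarith
  · intro h; nlinarith

lemma RQ.lt (he : RQ e) (he' : RQ e') : RP OO (fun z => e z < e' z) :=
  (RP.not (he'.le he)).congr fun z => by simp

/-- the rational number with a given code -/
noncomputable def rat (n : ℕ) : ℝ :=
  ((n.unpair.1 : ℝ) - n.unpair.2.unpair.1) / ((n.unpair.2.unpair.2 : ℝ) + 1)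

lemma RQ.rat {c : ℕ → ℕ} (hc : RecT OO c) : RQ (fun z => LN.rat (c z)) :=
  ⟨_, _, _, RecT.fst hc, RecT.fst (RecT.snd hc), RecT.snd (RecT.snd hc), fun _ => rfl⟩

lemma RQ.abs (he : RQ e) (he' : RQ e') : RP OO (fun z => |e z| ≤ e' z) :=
  (RP.and (he'.neg.le he) (he.le he')).congr fun z => by rw [abs_le]

lemma rat_surj (q : ℚ) : ∃ n, rat n = q := by
  refine ⟨Nat.pair q.num.toNat (Nat.pair (-q.num).toNat (q.den - 1)), ?_⟩
  unfold rat
  simp only [Nat.unpair_pair]
  have h1 : ((q.num.toNat : ℝ) - ((-q.num).toNat : ℝ)) = q.num := by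
    have : ((q.num.toNat : ℤ) - ((-q.num).toNat : ℤ)) = q.num := by omega
    exact_mod_cast this
  have h2 : ((q.den - 1 : ℕ) : ℝ) + 1 = q.den := by
    have : 1 ≤ q.den := q.den_pos
    push_cast [Nat.cast_sub this]; ring
  rw [h1, h2]
  exact (Rat.cast_def q).symm

lemma rat_rat (n : ℕ) : ∃ q : ℚ, rat n = q :=
  ⟨((n.unpair.1 : ℚ) - n.unpair.2.unpair.1) / ((n.unpair.2.unpair.2 : ℚ) + 1), by
    unfold rat; push_cast; rfl⟩

lemma exists_rat_btwn {x y : ℝ} (h : x < y) : ∃ n, x < rat n ∧ rat n < y := by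
  obtain ⟨q, h1, h2⟩ := _root_.exists_rat_btwn h
  obtain ⟨n, hn⟩ := rat_surj q
  exact ⟨n, by rw [hn]; exact h1, by rw [hn]; exact h2⟩

end Pool.Agent.Y588.LN
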