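import Pool.Agent.H166R3.HD.Space

set_option autoImplicit false
set_option linter.unusedVariables false
set_option linter.unusedSectionVars false

/-! Analytic relations on Baire space with number parameters: closure properties. -/

namespace Pool.Agent.Y588.LN

open Pool.Agent.Helper743 (RecT pre join)
open Pool.Agent.H166R3.HD
open scoped Classical

/-- the entry `i` of the list coded by `s` -/
def lget (s i : ℕ) : ℕ := ((Encodable.decode (α := List ℕ) s).getD []).getD i 0

/-- the code of a list -/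
def mk (n : ℕ) (H : ℕ → ℕ) : ℕ := Encodable.encode ((List.range n).map H)

lemma lget_mk {n i : ℕ} (h : i < n) (H : ℕ → ℕ) : lget (mk n H) i = H i := by
  unfold lget mk
  rw [Encodable.encodek, Option.getD_some, List.getD_eq_getElem?_getD]
  simp [h]

lemma mk_congr {n : ℕ} {H H' : ℕ → ℕ} (h : ∀ i < n, H i = H' i) : mk n H = mk n H' := by
  unfold mk
  congr 1
  exact List.map_congr_left fun i hi => h i (List.mem_range.1 hi)

lemma mk_lget {m n : ℕ} (h : m ≤ n) (H : ℕ → ℕ) : mk m (lget (mk n H)) = mk m H :=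
  mk_congr fun i hi => lget_mk (lt_of_lt_of_le hi h) H

lemma primrec_lget : Primrec (fun z : ℕ => lget z.unpair.1 z.unpair.2) := by
  have h1 : Primrec (fun z : ℕ => z.unpair.1) := Primrec.fst.comp Primrec.unpair
  have h2 : Primrec (fun z : ℕ => z.unpair.2) := Primrec.snd.comp Primrec.unpair
  have h3 : Primrec (fun z : ℕ => (Encodable.decode (α := List ℕ) z.unpair.1).getD []) :=
    Primrec.option_getD.comp (Primrec.decode.comp h1) (Primrec.const [])
  exact (Primrec.list_getD 0).comp h3 h2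

lemma _root_.Pool.Agent.Y588.LN.RecT.lget {O : Set (ℕ →. ℕ)} {s i : ℕ → ℕ} (hs : RecT O s)
    (hi : RecT O i) : RecT O (fun z => LN.lget (s z) (i z)) := by
  refine RecT.congr (RecT.comp (recT_prim (O := O) primrec_lget) (RecT.pair hs hi)) ?_
  intro z; simp

lemma _root_.Pool.Agent.Y588.LN.RecT.mk {O : Set (ℕ →. ℕ)} {b H : ℕ → ℕ} (hb : RecT O b)
    (hH : RecT O H) : RecT O (fun z => LN.mk (b z) (fun i => H (Nat.pair z i))) :=
  RecT.list hH hb

/-- the argument of a tree relation -/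
def KK (k n s t : ℕ) : ℕ := Nat.pair k (Nat.pair n (Nat.pair s t))

lemma _root_.Pool.Agent.Y588.LN.RecT.KK {O : Set (ℕ →. ℕ)} {k n s t : ℕ → ℕ} (hk : RecT O k)
    (hn : RecT O n) (hs : RecT O s) (ht : RecT O t) :
    RecT O (fun z => LN.KK (k z) (n z) (s z) (t z)) :=
  RecT.pair hk (RecT.pair hn (RecT.pair hs ht))

/-- relations on Baire space with a number parameter -/
abbrev BP := ℕ → (ℕ → ℕ) → Prop

/-- an oracle, given as a set of partial functions -/
class Orc where
  /-- the functions of the oracle -/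
  s : Set (ℕ →. ℕ)

/-- the oracle -/
abbrev OO [o : Orc] : Set (ℕ →. ℕ) := o.s

variable [Orc]

/-- analytic relations -/
def Sig (Q : BP) : Prop := ∃ r : ℕ → Prop, RP OO r ∧
  ∀ k p, Q k p ↔ ∃ g : ℕ → ℕ, ∀ n, r (KK k n (mk n p) (mk n g))

/-- truncation of codes -/
def tr (m s : ℕ) : ℕ := mk m (lget s)

lemma tr_mk {m n : ℕ} (h : m ≤ n) (p : ℕ → ℕ) : tr m (mk n p) = mk m p := mk_lget h p

section
variable {Q Q' : BP}

lemma Sig.congr (hQ : Sig Q) (h : ∀ k p, Q k p ↔ Q' k p) : Sig Q' := by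
  obtain ⟨r, hr, hQr⟩ := hQ
  exact ⟨r, hr, fun k p => (h k p).symm.trans (hQr k p)⟩

/-- projections of the argument -/
lemma rK {O : Set (ℕ →. ℕ)} {w : ℕ → ℕ} (hw : RecT O w) : RecT O (fun z => (w z).unpair.1) :=
  RecT.fst hw
lemma rN {O : Set (ℕ →. ℕ)} {w : ℕ → ℕ} (hw : RecT O w) :
    RecT O (fun z => (w z).unpair.2.unpair.1) := RecT.fst (RecT.snd hw)
lemma rS {O : Set (ℕ →. ℕ)} {w : ℕ → ℕ} (hw : RecT O w) :
    RecT O (fun z => (w z).unpair.2.unpair.2.unpair.1) := RecT.fst (RecT.snd (RecT.snd hw))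
lemma rT {O : Set (ℕ →. ℕ)} {w : ℕ → ℕ} (hw : RecT O w) :
    RecT O (fun z => (w z).unpair.2.unpair.2.unpair.2) := RecT.snd (RecT.snd (RecT.snd hw))

lemma KK1 (k n s t : ℕ) : (KK k n s t).unpair.1 = k := by simp [KK]
lemma KK2 (k n s t : ℕ) : (KK k n s t).unpair.2.unpair.1 = n := by simp [KK]
lemma KK3 (k n s t : ℕ) : (KK k n s t).unpair.2.unpair.2.unpair.1 = s := by simp [KK]
lemma KK4 (k n s t : ℕ) : (KK k n s t).unpair.2.unpair.2.unpair.2 = t := by simp [KK]

lemma Sig.num (hQ : Sig Q) {c : ℕ → ℕ} (hc : RecT OO c) : Sig (fun k p => Q (c k) p) := by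
  obtain ⟨r, hr, hQr⟩ := hQ
  refine ⟨fun z => r (KK (c z.unpair.1) z.unpair.2.unpair.1 z.unpair.2.unpair.2.unpair.1
    z.unpair.2.unpair.2.unpair.2), RP.comp hr (RecT.KK (RecT.comp hc (rK recT_id)) (rN recT_id)
      (rS recT_id) (rT recT_id)), fun k p => ?_⟩
  simp only [KK1, KK2, KK3, KK4]
  exact hQr (c k) p

/-- general form: a bounded family of conditions on truncations -/
lemma Sig.and (hQ : Sig Q) (hQ' : Sig Q') : Sig (fun k p => Q k p ∧ Q' k p) := by
  obtain ⟨r, hr, hQr⟩ := hQ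
  obtain ⟨r', hr', hQr'⟩ := hQ'
  refine ⟨fun z => r (KK z.unpair.1 z.unpair.2.unpair.1 z.unpair.2.unpair.2.unpair.1
      (mk z.unpair.2.unpair.1 (fun i => (lget z.unpair.2.unpair.2.unpair.2 i).unpair.1))) ∧
    r' (KK z.unpair.1 z.unpair.2.unpair.1 z.unpair.2.unpair.2.unpair.1
      (mk z.unpair.2.unpair.1 (fun i => (lget z.unpair.2.unpair.2.unpair.2 i).unpair.2))),
    RP.and (RP.comp hr ?_) (RP.comp hr' ?_), fun k p => ?_⟩
  · refine RecT.KK (rK recT_id) (rN recT_id) (rS recT_id) ?_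
    refine RecT.congr (RecT.mk (H := fun w =>
      (lget w.unpair.1.unpair.2.unpair.2.unpair.2 w.unpair.2).unpair.1) (rN recT_id)
      (RecT.fst (RecT.lget (rT (RecT.fst recT_id)) (RecT.snd recT_id)))) (fun z => by simp)
  · refine RecT.KK (rK recT_id) (rN recT_id) (rS recT_id) ?_
    refine RecT.congr (RecT.mk (H := fun w =>
      (lget w.unpair.1.unpair.2.unpair.2.unpair.2 w.unpair.2).unpair.2) (rN recT_id)
      (RecT.snd (RecT.lget (rT (RecT.fst recT_id)) (RecT.snd recT_id)))) (fun z => by simp)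
  · simp only [KK1, KK2, KK3, KK4]
    rw [hQr k p, hQr' k p]
    constructor
    · rintro ⟨⟨g, hg⟩, g', hg'⟩
      refine ⟨fun i => Nat.pair (g i) (g' i), fun n => ⟨?_, ?_⟩⟩
      · convert hg n using 2
        exact mk_congr fun i hi => by rw [lget_mk hi]; simp
      · convert hg' n using 2
        exact mk_congr fun i hi => by rw [lget_mk hi]; simp
    · rintro ⟨h, hh⟩
      refine ⟨⟨fun i => (h i).unpair.1, fun n => ?_⟩, fun i => (h i).unpair.2, fun n => ?_⟩
      · convert (hh n).1 using 2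
        exact mk_congr fun i hi => by rw [lget_mk hi]
      · convert (hh n).2 using 2
        exact mk_congr fun i hi => by rw [lget_mk hi]

lemma Sig.ex (hQ : Sig Q) : Sig (fun k p => ∃ m, Q (Nat.pair k m) p) := by
  obtain ⟨r, hr, hQr⟩ := hQ
  -- w = pair z j
  have hr2 : RP OO (fun w => r (KK (Nat.pair w.unpair.1.unpair.1
      (lget w.unpair.1.unpair.2.unpair.2.unpair.2 0).unpair.1) w.unpair.2
      (tr w.unpair.2 w.unpair.1.unpair.2.unpair.2.unpair.1)
      (mk w.unpair.2 (fun i => (lget w.unpair.1.unpair.2.unpair.2.unpair.2 i).unpair.2)))) := by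
    refine RP.comp hr ?_
    refine RecT.KK (RecT.pair (rK (RecT.fst recT_id)) (RecT.fst (RecT.lget (rT (RecT.fst recT_id))
      (recT_const 0)))) (RecT.snd recT_id) ?_ ?_
    · refine RecT.congr (RecT.mk (H := fun w =>
        lget w.unpair.1.unpair.1.unpair.2.unpair.2.unpair.1 w.unpair.2) (RecT.snd recT_id)
        (RecT.lget (rS (RecT.fst (RecT.fst recT_id))) (RecT.snd recT_id)))
        (fun z => by simp [tr])
    · refine RecT.congr (RecT.mk (H := fun w =>
        (lget w.unpair.1.unpair.1.unpair.2.unpair.2.unpair.2 w.unpair.2).unpair.2)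
        (RecT.snd recT_id)
        (RecT.snd (RecT.lget (rT (RecT.fst (RecT.fst recT_id))) (RecT.snd recT_id))))
        (fun z => by simp)
  refine ⟨fun z => ∀ j < z.unpair.2.unpair.1, r (KK (Nat.pair z.unpair.1
      (lget z.unpair.2.unpair.2.unpair.2 0).unpair.1) j (tr j z.unpair.2.unpair.2.unpair.1)
      (mk j (fun i => (lget z.unpair.2.unpair.2.unpair.2 i).unpair.2))),
    RP.congr (RP.ball hr2 (rN recT_id)) (fun z => by simp), fun k p => ?_⟩
  simp only [KK1, KK2, KK3, KK4]
  constructor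
  · rintro ⟨m, hm⟩
    obtain ⟨g, hg⟩ := (hQr _ _).1 hm
    refine ⟨fun i => Nat.pair m (g i), fun n j hj => ?_⟩
    rw [lget_mk (by omega : 0 < n), tr_mk hj.le]
    simp only [Nat.unpair_pair]
    convert hg j using 2
    exact mk_congr fun i hi => by rw [lget_mk (by omega)]; simp
  · rintro ⟨h, hh⟩
    refine ⟨(h 0).unpair.1, (hQr _ _).2 ⟨fun i => (h i).unpair.2, fun j => ?_⟩⟩
    have := hh (j+1) j (by omega)
    rw [lget_mk (by omega : 0 < j+1), tr_mk (by omega)] at this
    convert this using 2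
    exact mk_congr fun i hi => by rw [lget_mk (by omega)]

lemma Sig.all (hQ : Sig Q) : Sig (fun k p => ∀ m, Q (Nat.pair k m) p) := by
  obtain ⟨r, hr, hQr⟩ := hQ
  -- w = pair (pair z m) j
  have hr2 : RP OO (fun w => (∀ i < w.unpair.2, Nat.pair w.unpair.1.unpair.2 i <
      w.unpair.1.unpair.1.unpair.2.unpair.1) → r (KK (Nat.pair w.unpair.1.unpair.1.unpair.1
      w.unpair.1.unpair.2) w.unpair.2
      (tr w.unpair.2 w.unpair.1.unpair.1.unpair.2.unpair.2.unpair.1)
      (mk w.unpair.2 (fun i => lget w.unpair.1.unpair.1.unpair.2.unpair.2.unpair.2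
        (Nat.pair w.unpair.1.unpair.2 i))))) := by
    have a1 : RP OO (fun w => ∀ i < w.unpair.2, Nat.pair w.unpair.1.unpair.2 i <
      w.unpair.1.unpair.1.unpair.2.unpair.1) := by
      have : RP OO (fun w => Nat.pair w.unpair.1.unpair.1.unpair.2 w.unpair.2 <
        w.unpair.1.unpair.1.unpair.1.unpair.2.unpair.1) :=
        RP.lt (RecT.pair (RecT.snd (RecT.fst (RecT.fst recT_id))) (RecT.snd recT_id))
          (rN (RecT.fst (RecT.fst (RecT.fst recT_id))))
      exact RP.congr (RP.ball this (RecT.snd recT_id)) (fun z => by simp)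
    have a2 : RP OO (fun w => r (KK (Nat.pair w.unpair.1.unpair.1.unpair.1
      w.unpair.1.unpair.2) w.unpair.2
      (tr w.unpair.2 w.unpair.1.unpair.1.unpair.2.unpair.2.unpair.1)
      (mk w.unpair.2 (fun i => lget w.unpair.1.unpair.1.unpair.2.unpair.2.unpair.2
        (Nat.pair w.unpair.1.unpair.2 i))))) := by
      refine RP.comp hr (RecT.KK (RecT.pair (rK (RecT.fst (RecT.fst recT_id)))
        (RecT.snd (RecT.fst recT_id))) (RecT.snd recT_id) ?_ ?_)
      · refine RecT.congr (RecT.mk (H := fun w =>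
          lget w.unpair.1.unpair.1.unpair.1.unpair.2.unpair.2.unpair.1 w.unpair.2)
          (RecT.snd recT_id)
          (RecT.lget (rS (RecT.fst (RecT.fst (RecT.fst recT_id)))) (RecT.snd recT_id)))
          (fun z => by simp [tr])
      · refine RecT.congr (RecT.mk (H := fun w =>
          lget w.unpair.1.unpair.1.unpair.1.unpair.2.unpair.2.unpair.2
            (Nat.pair w.unpair.1.unpair.1.unpair.2 w.unpair.2))
          (RecT.snd recT_id)
          (RecT.lget (rT (RecT.fst (RecT.fst (RecT.fst recT_id))))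
            (RecT.pair (RecT.snd (RecT.fst (RecT.fst recT_id))) (RecT.snd recT_id))))
          (fun z => by simp)
    exact RP.congr (RP.or (RP.not a1) a2) (fun w => by tauto)
  have hr3 := RP.ball (RP.congr (RP.ball hr2 (rN (RecT.fst recT_id))) (fun z => Iff.rfl))
    (rN (O := OO) recT_id)
  refine ⟨fun z => ∀ m < z.unpair.2.unpair.1, ∀ j < z.unpair.2.unpair.1,
      (∀ i < j, Nat.pair m i < z.unpair.2.unpair.1) →
      r (KK (Nat.pair z.unpair.1 m) j (tr j z.unpair.2.unpair.2.unpair.1)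
      (mk j (fun i => lget z.unpair.2.unpair.2.unpair.2 (Nat.pair m i)))),
    RP.congr hr3 (fun z => by simp), fun k p => ?_⟩
  simp only [KK1, KK2, KK3, KK4]
  constructor
  · intro hm
    choose g hg using fun m => (hQr _ _).1 (hm m)
    refine ⟨fun i => g i.unpair.1 i.unpair.2, fun n m _ j hj hi => ?_⟩
    rw [tr_mk hj.le]
    convert hg m j using 2
    exact mk_congr fun i hij => by rw [lget_mk (hi i hij)]; simp
  · rintro ⟨h, hh⟩ m
    refine (hQr _ _).2 ⟨fun i => h (Nat.pair m i), fun j => ?_⟩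
    obtain ⟨n, hn1, hn2, hn3⟩ : ∃ n, m < n ∧ j < n ∧ ∀ i < j, Nat.pair m i < n := by
      refine ⟨max (m+1) (max (j+1) (Nat.pair m j + 1)), ?_, ?_, ?_⟩
      · exact lt_of_lt_of_le (Nat.lt_succ_self _) (le_max_left _ _)
      · exact lt_of_lt_of_le (Nat.lt_succ_self _) ((le_max_left _ _).trans (le_max_right _ _))
      · intro i hi
        have h1 : Nat.pair m i < Nat.pair m j := Nat.pair_lt_pair_right _ hi
        have h2 : Nat.pair m j + 1 ≤ max (m+1) (max (j+1) (Nat.pair m j + 1)) :=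
          (le_max_right _ _).trans (le_max_right _ _)
        omega
    have := hh n m hn1 j hn2 hn3
    rw [tr_mk hn2.le] at this
    convert this using 2
    exact mk_congr fun i hi => by rw [lget_mk (hn3 i hi)]

lemma Sig.or (hQ : Sig Q) (hQ' : Sig Q') : Sig (fun k p => Q k p ∨ Q' k p) := by
  obtain ⟨r, hr, hQr⟩ := hQ
  obtain ⟨r', hr', hQr'⟩ := hQ'
  -- combine into one relation with a parameter
  let r3 : ℕ → Prop := fun z => (z.unpair.1.unpair.2 = 0 ∧
      r (KK z.unpair.1.unpair.1 z.unpair.2.unpair.1 z.unpair.2.unpair.2.unpair.1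
        z.unpair.2.unpair.2.unpair.2)) ∨ (z.unpair.1.unpair.2 ≠ 0 ∧
      r' (KK z.unpair.1.unpair.1 z.unpair.2.unpair.1 z.unpair.2.unpair.2.unpair.1
        z.unpair.2.unpair.2.unpair.2))
  have hr3 : RP OO r3 := by
    have a : RecT OO (fun z => KK z.unpair.1.unpair.1 z.unpair.2.unpair.1
        z.unpair.2.unpair.2.unpair.1 z.unpair.2.unpair.2.unpair.2) :=
      RecT.KK (RecT.fst (rK recT_id)) (rN recT_id) (rS recT_id) (rT recT_id)
    have b : RP OO (fun z => z.unpair.1.unpair.2 = 0) :=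
      RP.eq (RecT.snd (rK recT_id)) (recT_const 0)
    exact RP.or (RP.and b (RP.comp hr a)) (RP.and (RP.not b) (RP.comp hr' a))
  have hS : Sig (fun k p => ∃ g : ℕ → ℕ, ∀ n, r3 (KK k n (mk n p) (mk n g))) :=
    ⟨r3, hr3, fun k p => Iff.rfl⟩
  refine hS.ex.congr fun k p => ?_
  simp only [r3, KK1, KK2, KK3, KK4, Nat.unpair_pair]
  rw [hQr, hQr']
  constructor
  · rintro ⟨m, g, hg⟩
    by_cases hm : m = 0
    · left
      exact ⟨g, fun n => by
        rcases hg n with h | h
        · exact h.2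
        · exact absurd hm h.1⟩
    · right
      exact ⟨g, fun n => by
        rcases hg n with h | h
        · exact absurd h.1 hm
        · exact h.2⟩
  · rintro (⟨g, hg⟩ | ⟨g, hg⟩)
    · exact ⟨0, g, fun n => Or.inl ⟨rfl, hg n⟩⟩
    · exact ⟨1, g, fun n => Or.inr ⟨by norm_num, hg n⟩⟩

/-- substitution of causal functionals -/
lemma Sig.subst (hQ : Sig Q) {φ : ℕ → ℕ} (hφ : RecT OO φ) :
    Sig (fun k p => Q k (fun i => φ (Nat.pair k (Nat.pair i (mk (i+1) p))))) := by
  obtain ⟨r, hr, hQr⟩ := hQ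
  have hr2 : RP OO (fun w => r (KK w.unpair.1.unpair.1 w.unpair.2
      (mk w.unpair.2 (fun i => φ (Nat.pair w.unpair.1.unpair.1
        (Nat.pair i (tr (i+1) w.unpair.1.unpair.2.unpair.2.unpair.1)))))
      (tr w.unpair.2 w.unpair.1.unpair.2.unpair.2.unpair.2))) := by
    refine RP.comp hr (RecT.KK (rK (RecT.fst recT_id)) (RecT.snd recT_id) ?_ ?_)
    · refine RecT.congr (RecT.mk (H := fun w => φ (Nat.pair w.unpair.1.unpair.1.unpair.1
        (Nat.pair w.unpair.2 (tr (w.unpair.2+1)
          w.unpair.1.unpair.1.unpair.2.unpair.2.unpair.1)))) (RecT.snd recT_id) ?_)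
        (fun z => by simp)
      refine RecT.comp hφ (RecT.pair (rK (RecT.fst (RecT.fst recT_id)))
        (RecT.pair (RecT.snd recT_id) ?_))
      refine RecT.congr (RecT.mk (H := fun w => lget
        w.unpair.1.unpair.1.unpair.1.unpair.2.unpair.2.unpair.1 w.unpair.2)
        (RecT.add (RecT.snd recT_id) (recT_const 1))
        (RecT.lget (rS (RecT.fst (RecT.fst (RecT.fst recT_id)))) (RecT.snd recT_id)))
        (fun z => by simp [tr])
    · refine RecT.congr (RecT.mk (H := fun w => lget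
        w.unpair.1.unpair.1.unpair.2.unpair.2.unpair.2 w.unpair.2)
        (RecT.snd recT_id)
        (RecT.lget (rT (RecT.fst (RecT.fst recT_id))) (RecT.snd recT_id)))
        (fun z => by simp [tr])
  refine ⟨fun z => ∀ j < z.unpair.2.unpair.1, r (KK z.unpair.1 j
      (mk j (fun i => φ (Nat.pair z.unpair.1
        (Nat.pair i (tr (i+1) z.unpair.2.unpair.2.unpair.1)))))
      (tr j z.unpair.2.unpair.2.unpair.2)),
    RP.congr (RP.ball hr2 (rN recT_id)) (fun z => by simp), fun k p => ?_⟩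
  simp only [KK1, KK2, KK3, KK4]
  rw [hQr]
  constructor
  · rintro ⟨g, hg⟩
    refine ⟨g, fun n j hj => ?_⟩
    rw [tr_mk hj.le]
    convert hg j using 2
    exact mk_congr fun i hi => by rw [tr_mk (by omega)]
  · rintro ⟨g, hg⟩
    refine ⟨g, fun j => ?_⟩
    have := hg (j+1) j (by omega)
    rw [tr_mk (by omega)] at this
    convert this using 2
    exact mk_congr fun i hi => by rw [tr_mk (by omega)]

/-- clopen relations -/
lemma Sig.base {u : ℕ → ℕ} {r : ℕ → Prop} (hr : RP OO r) (hu : RecT OO u) :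
    Sig (fun k p => r (Nat.pair k (mk (u k) p))) := by
  refine ⟨fun z => ¬ (u z.unpair.1 ≤ z.unpair.2.unpair.1) ∨
      r (Nat.pair z.unpair.1 (tr (u z.unpair.1) z.unpair.2.unpair.2.unpair.1)), ?_, fun k p => ?_⟩
  · refine RP.or (RP.not (RP.le (RecT.comp hu (rK recT_id)) (rN recT_id))) (RP.comp hr ?_)
    refine RecT.pair (rK recT_id) ?_
    refine RecT.congr (RecT.mk (H := fun w => lget w.unpair.1.unpair.2.unpair.2.unpair.1
      w.unpair.2) (RecT.comp hu (rK recT_id))
      (RecT.lget (rS (RecT.fst recT_id)) (RecT.snd recT_id))) (fun z => by simp [tr])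
  · simp only [KK1, KK2, KK3, KK4]
    constructor
    · intro h
      refine ⟨fun _ => 0, fun n => ?_⟩
      by_cases hn : u k ≤ n
      · right; rw [tr_mk hn]; exact h
      · exact Or.inl hn
    · rintro ⟨g, hg⟩
      rcases hg (u k) with h | h
      · exact absurd le_rfl h
      · rwa [tr_mk le_rfl] at h

end

end Pool.Agent.Y588.LN
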