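import Pool.Agent.Y588.LN.Def

set_option autoImplicit false
set_option linter.unusedVariables false
set_option linter.unusedSectionVars false

/-! Measurability of analytic and coanalytic relations, countability of the functions recursive in
countably many oracles, and the passage between trees and the calculus. -/

namespace Pool.Agent.Y588.LN

open Pool.Agent.Helper743 (RecT pre join)
open Pool.Agent.H166R3.HD
open MeasureTheory Filter Topology Set Metric
open scoped Classical ENNReal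

/-! Countability -/

section cnt

/-- one step of closure -/
def clo (A : Set (ℕ →. ℕ)) : Set (ℕ →. ℕ) :=
  A ∪ (Set.image2 (fun f h => fun n => (Nat.pair <$> f n <*> h n)) A A ∪
    (Set.image2 (fun f h => fun n => h n >>= f) A A ∪
    (Set.image2 (fun f h => fun p =>
        let (a, n) := Nat.unpair p
        n.rec (f a) fun y IH => do
          let i ← IH
          h (Nat.pair a (Nat.pair y i))) A A ∪
    (fun f : ℕ →. ℕ => (fun a => Nat.rfind fun n => (fun m => m = 0) <$> f (Nat.pair a n) : ℕ →. ℕ)) '' A)))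

lemma clo_countable {A : Set (ℕ →. ℕ)} (hA : A.Countable) : (clo A).Countable :=
  hA.union ((hA.image2 hA _).union ((hA.image2 hA _).union ((hA.image2 hA _).union (hA.image _))))

/-- the levels -/
def lev (O : Set (ℕ →. ℕ)) : ℕ → Set (ℕ →. ℕ)
  | 0 => O ∪ {(fun _ => 0 : ℕ →. ℕ), (Nat.succ : ℕ →. ℕ), (fun n => Part.some (Nat.unpair n).1 : ℕ →. ℕ),
      (fun n => Part.some (Nat.unpair n).2 : ℕ →. ℕ)}
  | n + 1 => clo (lev O n)

lemma lev_countable {O : Set (ℕ →. ℕ)} (hO : O.Countable) : ∀ n, (lev O n).Countable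
  | 0 => hO.union (Set.toFinite _).countable
  | n + 1 => clo_countable (lev_countable hO n)

lemma lev_mono (O : Set (ℕ →. ℕ)) : Monotone (lev O) :=
  monotone_nat_of_le_succ fun n => by
    show lev O n ⊆ clo (lev O n)
    exact subset_union_left

lemma mem_lev {O : Set (ℕ →. ℕ)} {f : ℕ →. ℕ} (hf : Nat.RecursiveIn O f) : ∃ n, f ∈ lev O n := by
  induction hf with
  | zero => exact ⟨0, Or.inr (Or.inl rfl)⟩
  | succ => exact ⟨0, Or.inr (Or.inr (Or.inl rfl))⟩
  | left => exact ⟨0, Or.inr (Or.inr (Or.inr (Or.inl rfl)))⟩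
  | right => exact ⟨0, Or.inr (Or.inr (Or.inr (Or.inr rfl)))⟩
  | oracle g hg => exact ⟨0, Or.inl hg⟩
  | pair _ _ ih1 ih2 =>
    obtain ⟨a, ha⟩ := ih1
    obtain ⟨b, hb⟩ := ih2
    exact ⟨max a b + 1, Or.inr (Or.inl ⟨_, lev_mono O (le_max_left a b) ha, _,
      lev_mono O (le_max_right a b) hb, rfl⟩)⟩
  | comp _ _ ih1 ih2 =>
    obtain ⟨a, ha⟩ := ih1
    obtain ⟨b, hb⟩ := ih2
    exact ⟨max a b + 1, Or.inr (Or.inr (Or.inl ⟨_, lev_mono O (le_max_left a b) ha, _,
      lev_mono O (le_max_right a b) hb, rfl⟩))⟩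
  | prec _ _ ih1 ih2 =>
    obtain ⟨a, ha⟩ := ih1
    obtain ⟨b, hb⟩ := ih2
    exact ⟨max a b + 1, Or.inr (Or.inr (Or.inr (Or.inl ⟨_, lev_mono O (le_max_left a b) ha, _,
      lev_mono O (le_max_right a b) hb, rfl⟩)))⟩
  | rfind _ ih =>
    obtain ⟨a, ha⟩ := ih
    exact ⟨a + 1, Or.inr (Or.inr (Or.inr (Or.inr ⟨_, ha, rfl⟩)))⟩

lemma countable_recursiveIn {O : Set (ℕ →. ℕ)} (hO : O.Countable) :
    {f : ℕ →. ℕ | Nat.RecursiveIn O f}.Countable := by
  refine (countable_iUnion (lev_countable hO)).mono fun f hf => ?_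
  exact mem_iUnion.2 (mem_lev hf)

lemma countable_recT {O : Set (ℕ →. ℕ)} (hO : O.Countable) : {F : ℕ → ℕ | RecT O F}.Countable := by
  have hinj : Set.InjOn (fun F : ℕ → ℕ => (fun n => Part.some (F n) : ℕ →. ℕ)) {F | RecT O F} := by
    intro F _ G _ h
    funext n
    exact Part.some_injective (congrFun h n)
  exact (Set.MapsTo.countable_of_injOn (t := {f : ℕ →. ℕ | Nat.RecursiveIn O f})
    (fun F hF => hF) hinj (countable_recursiveIn hO))

end cnt

/-! Measurability -/

section meas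

lemma continuous_mk (n : ℕ) : Continuous (fun p : ℕ → ℕ => mk n p) := by
  refine IsLocallyConstant.continuous ((IsLocallyConstant.iff_exists_open _).2 fun p => ?_)
  refine ⟨⋂ i ∈ Finset.range n, (fun p' : ℕ → ℕ => p' i) ⁻¹' {p i}, ?_, ?_, ?_⟩
  · exact isOpen_biInter_finset fun i _ => (isOpen_discrete _).preimage (continuous_apply i)
  · simp
  · intro p' hp'
    refine mk_congr fun i hi => ?_
    simp only [mem_iInter, mem_preimage, mem_singleton_iff, Finset.mem_range] at hp'
    exact hp' i hi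

variable [Orc]

lemma analytic_of_sig {P : ℕ → ℝ → Prop} (h : Sig (NR P)) (k : ℕ) :
    AnalyticSet {x | P k x} := by
  obtain ⟨r, _, hr⟩ := h
  have hclosed : IsClosed {z : (ℕ → ℕ) × (ℕ → ℕ) × ℝ | IsName z.1 z.2.2 ∧
      ∀ n, r (KK k n (mk n z.1) (mk n z.2.1))} := by
    refine IsClosed.inter ?_ ?_
    · have : {z : (ℕ → ℕ) × (ℕ → ℕ) × ℝ | IsName z.1 z.2.2} =
          ⋂ n : ℕ, {z | |rat (z.1 n) - z.2.2| ≤ (1/2)^n} := by
        ext z; simp [IsName]
      show IsClosed {z : (ℕ → ℕ) × (ℕ → ℕ) × ℝ | IsName z.1 z.2.2}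
      rw [this]
      refine isClosed_iInter fun n => isClosed_le ?_ continuous_const
      have h1 : Continuous (fun z : (ℕ → ℕ) × (ℕ → ℕ) × ℝ => rat (z.1 n)) :=
        (continuous_of_discreteTopology (f := rat)).comp ((continuous_apply n).comp continuous_fst)
      exact (h1.sub (continuous_snd.comp continuous_snd)).abs
    · have : {z : (ℕ → ℕ) × (ℕ → ℕ) × ℝ | ∀ n, r (KK k n (mk n z.1) (mk n z.2.1))} =
          ⋂ n : ℕ, (fun z : (ℕ → ℕ) × (ℕ → ℕ) × ℝ => (mk n z.1, mk n z.2.1)) ⁻¹'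
            {w : ℕ × ℕ | r (KK k n w.1 w.2)} := by
        ext z; simp
      show IsClosed {z : (ℕ → ℕ) × (ℕ → ℕ) × ℝ | ∀ n, r (KK k n (mk n z.1) (mk n z.2.1))}
      rw [this]
      refine isClosed_iInter fun n => (isClosed_discrete _).preimage ?_
      exact ((continuous_mk n).comp continuous_fst).prodMk
        ((continuous_mk n).comp (continuous_fst.comp continuous_snd))
  have himg : {x | P k x} = (fun z : (ℕ → ℕ) × (ℕ → ℕ) × ℝ => z.2.2) ''
      {z | IsName z.1 z.2.2 ∧ ∀ n, r (KK k n (mk n z.1) (mk n z.2.1))} := by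
    ext x
    constructor
    · intro hx
      obtain ⟨p, hp⟩ := exists_name x
      have hpx : IsName p x := fun n => (hp n).le
      obtain ⟨g, hg⟩ := (hr k p).1 ⟨x, hpx, hx⟩
      exact ⟨(p, g, x), ⟨hpx, hg⟩, rfl⟩
    · rintro ⟨⟨p, g, x'⟩, ⟨h1, h2⟩, rfl⟩
      exact (NR_iff h1 k).1 ((hr k p).2 ⟨g, h2⟩)
  rw [himg]
  exact hclosed.analyticSet.image_of_continuous (continuous_snd.comp continuous_snd)

lemma measurable_of_delR {P : ℕ → ℝ → Prop} (h : DelR P) (k : ℕ) : MeasurableSet {x | P k x} := by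
  refine (analytic_of_sig h.1 k).measurableSet_of_compl ?_
  exact analytic_of_sig (P := fun k x => ¬ P k x) h.not.1 k

/-- functions whose comparison with rational numbers is analytic and coanalytic -/
lemma HypF.of_lt {f : ℝ → ℝ} (h : DelR (fun k x => f x < rat k)) : HypF f := by
  refine ⟨h, ?_, ?_⟩
  · have c2 : RecT OO (fun K => K.unpair.2) := RecT.snd recT_id
    have hc : RP OO (fun K => rat K.unpair.1 < rat K.unpair.2) :=
      RQ.lt (RQ.rat (RecT.fst recT_id)) (RQ.rat c2)
    refine ((DelR.rp hc).and (h.num c2).not).ex.congr fun k x => ?_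
    simp only [Nat.unpair_pair, not_lt]
    constructor
    · rintro ⟨m, h1, h2⟩; exact lt_of_lt_of_le h1 h2
    · intro h1
      obtain ⟨m, h2, h3⟩ := exists_rat_btwn h1
      exact ⟨m, h2, h3.le⟩
  · refine measurable_of_Iio fun a => ?_
    have : f ⁻¹' Iio a = ⋃ k ∈ {k : ℕ | rat k ≤ a}, {x | f x < rat k} := by
      ext x
      simp only [mem_preimage, mem_Iio, mem_iUnion, mem_ofPred_eq, exists_prop]
      constructor
      · intro hx
        obtain ⟨m, h2, h3⟩ := exists_rat_btwn hx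
        exact ⟨m, h3.le, h2⟩
      · rintro ⟨m, h1, h2⟩; exact lt_of_lt_of_le h2 h1
    rw [this]
    exact MeasurableSet.biUnion (Set.to_countable _) fun k _ => measurable_of_delR h k

/-! Trees and the calculus -/

/-- from trees to the calculus -/
lemma sig_of {T : ℕ → ℕ} (hT : RecT OO T) : Sig (fun k p => ∃ g : ℕ → ℕ, ∀ n,
    T (Nat.pair k (mk n fun i => Nat.pair (p i) (g i))) = 1) := by
  refine ⟨fun w => T (Nat.pair w.unpair.1 (mk w.unpair.2.unpair.1 fun i =>
    Nat.pair (lget w.unpair.2.unpair.2.unpair.1 i) (lget w.unpair.2.unpair.2.unpair.2 i))) = 1,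
    ?_, fun k p => ?_⟩
  · refine RP.eq (RecT.comp hT (RecT.pair (RecT.fst recT_id) ?_)) (recT_const 1)
    refine RecT.congr (RecT.mk (H := fun w => Nat.pair
      (lget w.unpair.1.unpair.2.unpair.2.unpair.1 w.unpair.2)
      (lget w.unpair.1.unpair.2.unpair.2.unpair.2 w.unpair.2)) (rN recT_id) ?_) (fun z => by simp)
    exact RecT.pair
      (RecT.lget (RecT.fst (RecT.snd (RecT.snd (RecT.fst recT_id)))) (RecT.snd recT_id))
      (RecT.lget (RecT.snd (RecT.snd (RecT.snd (RecT.fst recT_id)))) (RecT.snd recT_id))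
  · refine exists_congr fun g => forall_congr' fun n => ?_
    simp only [KK1, KK2, KK3, KK4]
    have e : mk n (fun i => Nat.pair (lget (mk n p) i) (lget (mk n g) i)) =
        mk n (fun i => Nat.pair (p i) (g i)) :=
      mk_congr fun i hi => by rw [lget_mk hi, lget_mk hi]
    rw [e]

/-- from trees for a relation and its complement to the calculus -/
lemma delR_of {P : ℕ → ℝ → Prop} {T T' : ℕ → ℕ} (hT : RecT OO T) (hT' : RecT OO T')
    (h : ∀ k p x, IsName p x → (P k x ↔ ∃ g : ℕ → ℕ, ∀ n,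
      T (Nat.pair k (mk n fun i => Nat.pair (p i) (g i))) = 1))
    (h' : ∀ k p x, IsName p x → (¬ P k x ↔ ∃ g : ℕ → ℕ, ∀ n,
      T' (Nat.pair k (mk n fun i => Nat.pair (p i) (g i))) = 1)) : DelR P := by
  have hv := del_val
  constructor
  · refine (hv.1.and (sig_of hT)).congr fun k p => ?_
    constructor
    · rintro ⟨⟨x, hx⟩, hg⟩
      exact ⟨x, hx, (h k p x hx).2 hg⟩
    · rintro ⟨x, hx, hP⟩
      exact ⟨⟨x, hx⟩, (h k p x hx).1 hP⟩
  · refine (hv.2.or (hv.1.and (sig_of hT'))).congr fun k p => ?_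
    constructor
    · rintro (hn | ⟨⟨x, hx⟩, hg⟩)
      · rintro ⟨x, hx, _⟩
        exact hn ⟨x, hx⟩
      · rw [NR_iff hx]
        exact (h' k p x hx).2 hg
    · intro hn
      by_cases hval : Val p
      · obtain ⟨x, hx⟩ := hval
        rw [NR_iff hx] at hn
        exact Or.inr ⟨⟨x, hx⟩, (h' k p x hx).1 hn⟩
      · exact Or.inl hval

/-- from the calculus to trees -/
lemma tree_of {P : ℕ → ℝ → Prop} (h : Sig (NR P)) : ∃ T : ℕ → ℕ, RecT OO T ∧
    ∀ k p x, IsName p x → (P k x ↔ ∃ g : ℕ → ℕ, ∀ n,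
      T (Nat.pair k (mk n fun i => Nat.pair (p i) (g i))) = 1) := by
  obtain ⟨r, hr, hP⟩ := h
  let r' : ℕ → Prop := fun w => r (KK w.unpair.1 (len w.unpair.2)
    (mk (len w.unpair.2) (fun i => (lget w.unpair.2 i).unpair.1))
    (mk (len w.unpair.2) (fun i => (lget w.unpair.2 i).unpair.2)))
  have hlen : RecT OO (fun w : ℕ => len w.unpair.2) := recT_len (RecT.snd recT_id)
  have hr' : RP OO r' := by
    refine RP.comp hr (RecT.KK (RecT.fst recT_id) hlen ?_ ?_)
    · refine RecT.congr (RecT.mk (H := fun w => (lget w.unpair.1.unpair.2 w.unpair.2).unpair.1) hlen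
        (RecT.fst (RecT.lget (RecT.snd (RecT.fst recT_id)) (RecT.snd recT_id)))) (fun z => by simp)
    · refine RecT.congr (RecT.mk (H := fun w => (lget w.unpair.1.unpair.2 w.unpair.2).unpair.2) hlen
        (RecT.snd (RecT.lget (RecT.snd (RecT.fst recT_id)) (RecT.snd recT_id)))) (fun z => by simp)
  refine ⟨fun w => if r' w then 1 else 0, hr', fun k p x hx => ?_⟩
  rw [← NR_iff (P := P) hx k, hP]
  refine exists_congr fun g => forall_congr' fun n => ?_
  have h4 : r' (Nat.pair k (mk n fun i => Nat.pair (p i) (g i))) ↔ r (KK k n (mk n p) (mk n g)) := by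
    simp only [r', Nat.unpair_pair, len_mk]
    have e1 : mk n (fun i => (lget (mk n (fun i => Nat.pair (p i) (g i))) i).unpair.1) = mk n p :=
      mk_congr fun i hi => by rw [lget_mk hi]; simp
    have e2 : mk n (fun i => (lget (mk n (fun i => Nat.pair (p i) (g i))) i).unpair.2) = mk n g :=
      mk_congr fun i hi => by rw [lget_mk hi]; simp
    rw [e1, e2]
  by_cases h5 : r' (Nat.pair k (mk n fun i => Nat.pair (p i) (g i)))
  · simp only [h5, if_true]
    exact ⟨fun _ => trivial, fun _ => h4.1 h5⟩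
  · simp only [h5, if_false]
    constructor
    · intro h6; exact absurd (h4.2 h6) h5
    · intro h6; simp at h6

end meas

end Pool.Agent.Y588.LN
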